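import Mathlib

/-!
# Finite p-groups G = A B with A, B of exponent p and exp G = p ^ 3: the general step

`Q = A₁ B₁` is a finite group, `A₁`, `B₁` have exponent `p`. Let `NN` be the group of the functions
`f : Q → ℤ/p` whose products along all the cosets of the conjugates of the nontrivial cyclic
subgroups of `B₁` are trivial. Then `G = NN ⋊ Q` is the product of `A₁` and of `NN ⋊ B₁`, and both
have exponent `p`.
-/

set_option autoImplicit false

namespace Pool.Agent.H286.PG

open Finset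

/-- the group of order `p` -/
abbrev C (p : ℕ) := Multiplicative (ZMod p)

/-- powers in a wreath product -/
theorem pow_left' {D Q : Type*} [CommGroup D] [Group Q] (w : D ≀ᵣ Q) (n : ℕ) :
    (∀ x, (w ^ n).left x = ∏ j ∈ range n, w.left (w.right⁻¹ ^ j * x)) ∧
      (w ^ n).right = w.right ^ n := by
  induction n with
  | zero => simp
  | succ n ih =>
    constructor
    · intro x
      rw [pow_succ, RegularWreathProduct.mul_left, Pi.mul_apply, ih.1, prod_range_succ, ih.2,
        inv_pow]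
    · rw [pow_succ, RegularWreathProduct.mul_right, ih.2, pow_succ]

theorem C_pow (p : ℕ) (x : C p) : x ^ p = 1 := by
  apply Multiplicative.toAdd.injective
  rw [toAdd_pow, toAdd_one, nsmul_eq_mul, CharP.cast_eq_zero, zero_mul]

/-- if the right component is trivial the `p`-th power is trivial -/
theorem pow_of_right {p : ℕ} {Q : Type*} [Group Q] (w : C p ≀ᵣ Q) (h : w.right = 1) :
    w ^ p = 1 := by
  obtain ⟨h1, h2⟩ := pow_left' w p
  ext x
  · rw [h1, RegularWreathProduct.one_left, Pi.one_apply]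
    have h3 : ∀ j ∈ range p, w.left (w.right⁻¹ ^ j * x) = w.left x := by
      intro j _
      rw [h, inv_one, one_pow, one_mul]
    rw [prod_congr rfl h3, prod_const, card_range, C_pow]
  · rw [h2, h, one_pow, RegularWreathProduct.one_right]

section

variable {p : ℕ} {Q : Type} [Group Q] (B₁ : Subgroup Q)

/-- the conjugates of the nontrivial elements of `B₁` -/
def TT : Set Q := {t | ∃ x : Q, ∃ b ∈ B₁, b ≠ 1 ∧ t = x * b * x⁻¹}

theorem TT_conj {t : Q} (ht : t ∈ TT B₁) (q : Q) : q * t * q⁻¹ ∈ TT B₁ := by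
  obtain ⟨x, b, hb, hb1, rfl⟩ := ht
  exact ⟨q * x, b, hb, hb1, by group⟩

/-- the functions with trivial products along the cosets -/
def NN (p : ℕ) {Q : Type} [Group Q] (B₁ : Subgroup Q) : Set (Q → C p) :=
  {f | ∀ t ∈ TT B₁, ∀ x, ∏ j ∈ range p, f (t ^ j * x) = 1}

variable {B₁}

theorem NN_shift {f : Q → C p} (hf : f ∈ NN p B₁) (q : Q) : (fun x => f (q * x)) ∈ NN p B₁ := by
  intro t ht x
  have h := hf (q * t * q⁻¹) (TT_conj B₁ ht q) (q * x)
  rw [← h]
  refine prod_congr rfl fun j _ => ?_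
  show f (q * (t ^ j * x)) = _
  rw [conj_pow]
  congr 1
  group

theorem NN_mul {f g : Q → C p} (hf : f ∈ NN p B₁) (hg : g ∈ NN p B₁) : f * g ∈ NN p B₁ := by
  intro t ht x
  show ∏ j ∈ range p, (f (t ^ j * x) * g (t ^ j * x)) = 1
  rw [prod_mul_distrib, hf t ht x, hg t ht x, one_mul]

theorem NN_inv {f : Q → C p} (hf : f ∈ NN p B₁) : f⁻¹ ∈ NN p B₁ := by
  intro t ht x
  show ∏ j ∈ range p, (f (t ^ j * x))⁻¹ = 1
  rw [prod_inv_distrib, hf t ht x, inv_one]

theorem NN_one : (1 : Q → C p) ∈ NN p B₁ := by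
  intro t _ x
  exact prod_eq_one fun _ _ => rfl

variable (p B₁)

/-- the group `NN ⋊ Q` -/
def GG : Subgroup (C p ≀ᵣ Q) where
  carrier := {w | w.left ∈ NN p B₁}
  mul_mem' := by
    intro w v hw hv
    show (w * v).left ∈ NN p B₁
    rw [RegularWreathProduct.mul_left]
    exact NN_mul hw (NN_shift hv w.right⁻¹)
  one_mem' := NN_one
  inv_mem' := by
    intro w hw
    show (w⁻¹).left ∈ NN p B₁
    rw [RegularWreathProduct.inv_left]
    exact NN_shift (NN_inv hw) w.right

variable {p B₁}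

/-- **The step.** -/
theorem step (hp : p.Prime) [Finite Q] (A₁ : Subgroup Q) (hA : ∀ a ∈ A₁, a ^ p = 1)
    (hB : ∀ b ∈ B₁, b ^ p = 1) (hQ : ∀ q : Q, ∃ a ∈ A₁, ∃ b ∈ B₁, q = a * b) (k : ℕ)
    (hk : ∀ q : Q, q ^ p ^ k = 1) (g : Q) (f₀ : Q → C p) (hf : f₀ ∈ NN p B₁)
    (hg : ((⟨f₀, g⟩ : C p ≀ᵣ Q) ^ p ^ k) ≠ 1) :
    ∃ (G : Type) (_ : Group G) (_ : Finite G), IsPGroup p G ∧ ∃ A B : Subgroup G,
      (∀ a ∈ A, a ^ p = 1) ∧ (∀ b ∈ B, b ^ p = 1) ∧
      (∀ g : G, ∃ a ∈ A, ∃ b ∈ B, g = a * b) ∧ Monoid.exponent G = p ^ (k + 1) := by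
  have : NeZero p := ⟨hp.ne_zero⟩
  have : Finite (C p) := inferInstanceAs (Finite (ZMod p))
  have hexp : ∀ w : C p ≀ᵣ Q, w ^ p ^ (k + 1) = 1 := by
    intro w
    rw [pow_succ, pow_mul]
    apply pow_of_right
    rw [(pow_left' w _).2, hk]
  have hexpG : ∀ w : GG p B₁, w ^ p ^ (k + 1) = 1 := by
    intro w
    apply Subtype.ext
    rw [SubmonoidClass.coe_pow, hexp]
    rfl
  refine ⟨GG p B₁, inferInstance, inferInstance, fun w => ⟨k + 1, hexpG w⟩,
    (A₁.map RegularWreathProduct.inl).subgroupOf (GG p B₁),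
    B₁.comap (RegularWreathProduct.rightHom.comp (GG p B₁).subtype), ?_, ?_, ?_, ?_⟩
  · intro a ha
    rw [Subgroup.mem_subgroupOf] at ha
    obtain ⟨x, hx, hxa⟩ := Subgroup.mem_map.1 ha
    apply Subtype.ext
    rw [SubmonoidClass.coe_pow, ← hxa, ← map_pow, hA x hx, map_one]
    rfl
  · intro b hb
    rw [Subgroup.mem_comap] at hb
    have hb' : b.1.right ∈ B₁ := hb
    apply Subtype.ext
    rw [SubmonoidClass.coe_pow]
    show b.1 ^ p = 1
    by_cases h1 : b.1.right = 1
    · exact pow_of_right _ h1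
    · obtain ⟨h2, h3⟩ := pow_left' b.1 p
      ext x
      · rw [h2, RegularWreathProduct.one_left, Pi.one_apply]
        have h4 : b.1.left ∈ NN p B₁ := b.2
        refine h4 (b.1.right⁻¹) ⟨1, b.1.right⁻¹, B₁.inv_mem hb', ?_, by group⟩ x
        exact fun h => h1 (inv_eq_one.1 h)
      · rw [h3, hB _ hb', RegularWreathProduct.one_right]
  · intro w
    obtain ⟨a, ha, b, hb, hab⟩ := hQ w.1.right
    have hw : w.1.left ∈ NN p B₁ := w.2
    refine ⟨⟨RegularWreathProduct.inl a, NN_one⟩, ?_,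
      ⟨⟨fun x => w.1.left (a * x), b⟩, NN_shift hw a⟩, ?_, ?_⟩
    · rw [Subgroup.mem_subgroupOf]
      exact Subgroup.mem_map_of_mem _ ha
    · rw [Subgroup.mem_comap]
      exact hb
    · apply Subtype.ext
      show w.1 = RegularWreathProduct.inl a * ⟨fun x => w.1.left (a * x), b⟩
      ext x
      · rw [RegularWreathProduct.mul_left, Pi.mul_apply, RegularWreathProduct.left_inl,
          Pi.one_apply, one_mul, RegularWreathProduct.right_inl]
        show w.1.left x = w.1.left (a * (a⁻¹ * x))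
        rw [mul_inv_cancel_left]
      · rw [RegularWreathProduct.mul_right, RegularWreathProduct.right_inl]
        exact hab
  · have hd : Monoid.exponent (GG p B₁) ∣ p ^ (k + 1) :=
      Monoid.exponent_dvd_of_forall_pow_eq_one hexpG
    obtain ⟨m, hm, he⟩ := (Nat.dvd_prime_pow hp).1 hd
    rcases Nat.lt_or_ge m (k + 1) with h | h
    · exfalso
      apply hg
      have h1 := Monoid.pow_exponent_eq_one (⟨⟨f₀, g⟩, hf⟩ : GG p B₁)
      rw [he] at h1
      have h2 : (⟨f₀, g⟩ : C p ≀ᵣ Q) ^ p ^ m = 1 := by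
        have := congrArg Subtype.val h1
        rw [SubmonoidClass.coe_pow] at this
        exact this
      have h3 : p ^ k = p ^ m * p ^ (k - m) := by
        rw [← pow_add]
        congr 1
        omega
      rw [h3, pow_mul, h2, one_pow]
    · have : m = k + 1 := by omega
      rw [he, this]

end

end Pool.Agent.H286.PG
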