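import Pool.Agent.H286.PG.Abs

/-!
# The wreath product of two groups of order p as a product of two subgroups of exponent p
-/

set_option autoImplicit false

namespace Pool.Agent.H286.PG

open Finset

variable {p : ℕ} [hp : Fact p.Prime]

/-- sums over `range p` -/
theorem prod_range_zmod {M : Type*} [CommMonoid M] (h : ZMod p → M) :
    ∏ j ∈ range p, h (j : ZMod p) = ∏ y : ZMod p, h y := by
  refine prod_bij (fun (j : ℕ) _ => (j : ZMod p)) (fun _ _ => mem_univ _) ?_ ?_ (fun _ _ => rfl)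
  · intro a ha b hb hab
    rw [mem_range] at ha hb
    have h1 := (ZMod.natCast_eq_natCast_iff' a b p).1 hab
    rwa [Nat.mod_eq_of_lt ha, Nat.mod_eq_of_lt hb] at h1
  · intro y _
    exact ⟨y.val, mem_range.2 (ZMod.val_lt y), ZMod.natCast_zmod_val y⟩

theorem sum_range_zmod {M : Type*} [AddCommMonoid M] (h : ZMod p → M) :
    ∑ j ∈ range p, h (j : ZMod p) = ∑ y : ZMod p, h y := by
  refine sum_bij (fun (j : ℕ) _ => (j : ZMod p)) (fun _ _ => mem_univ _) ?_ ?_ (fun _ _ => rfl)
  · intro a ha b hb hab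
    rw [mem_range] at ha hb
    have h1 := (ZMod.natCast_eq_natCast_iff' a b p).1 hab
    rwa [Nat.mod_eq_of_lt ha, Nat.mod_eq_of_lt hb] at h1
  · intro y _
    exact ⟨y.val, mem_range.2 (ZMod.val_lt y), ZMod.natCast_zmod_val y⟩

/-- affine substitution -/
theorem sum_aff {M : Type*} [AddCommMonoid M] (h : ZMod p → M) {c : ZMod p} (hc : c ≠ 0)
    (b : ZMod p) : ∑ j ∈ range p, h ((j : ZMod p) * c + b) = ∑ y : ZMod p, h y := by
  rw [sum_range_zmod (fun y => h (y * c + b))]
  exact Fintype.sum_bijective (fun y : ZMod p => y * c + b)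
    (Finite.injective_iff_bijective.1 fun x y hxy => by
      have : x * c = y * c := add_right_cancel hxy
      exact mul_right_cancel₀ hc this) _ _ (fun _ => rfl)

theorem prod_aff {M : Type*} [CommMonoid M] (h : ZMod p → M) {c : ZMod p} (hc : c ≠ 0)
    (b : ZMod p) : ∏ j ∈ range p, h ((j : ZMod p) * c + b) = ∏ y : ZMod p, h y := by
  rw [prod_range_zmod (fun y => h (y * c + b))]
  exact Fintype.prod_bijective (fun y : ZMod p => y * c + b)
    (Finite.injective_iff_bijective.1 fun x y hxy => by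
      have : x * c = y * c := add_right_cancel hxy
      exact mul_right_cancel₀ hc this) _ _ (fun _ => rfl)

/-- the powers of a nontrivial element -/
theorem prod_C {M : Type*} [CommMonoid M] (h : C p → M) {c : C p} (hc : c ≠ 1) (x : C p) :
    ∏ j ∈ range p, h (c ^ j * x) = ∏ y : C p, h y := by
  have hc' : Multiplicative.toAdd c ≠ 0 := fun h => hc (Multiplicative.toAdd.injective h)
  have h1 := prod_aff (fun y : ZMod p => h (Multiplicative.ofAdd y)) hc' (Multiplicative.toAdd x)
  have h2 : ∀ j ∈ range p, h (c ^ j * x) = h (Multiplicative.ofAdd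
      ((j : ZMod p) * Multiplicative.toAdd c + Multiplicative.toAdd x)) := by
    intro j _
    congr 1
    apply Multiplicative.toAdd.injective
    rw [toAdd_mul, toAdd_pow, nsmul_eq_mul, toAdd_ofAdd]
  rw [prod_congr rfl h2, h1]
  exact Fintype.prod_bijective (Multiplicative.ofAdd : ZMod p → C p)
    Multiplicative.ofAdd.bijective _ _ (fun _ => rfl)

/-- the wreath product -/
abbrev QQ (p : ℕ) := C p ≀ᵣ C p

/-- the product of the values -/
def sg (p : ℕ) [Fact p.Prime] : QQ p →* C p where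
  toFun q := ∏ s : C p, q.left s
  map_one' := prod_eq_one fun _ _ => rfl
  map_mul' := by
    intro a b
    rw [RegularWreathProduct.mul_left]
    show ∏ s : C p, (a.left s * b.left (a.right⁻¹ * s)) = _
    rw [prod_mul_distrib]
    congr 1
    exact Fintype.prod_bijective (fun s => a.right⁻¹ * s) (Group.mulLeft_bijective _) _ _
      (fun _ => rfl)

/-- the elements supported at the identity -/
def BB (p : ℕ) : Subgroup (QQ p) where
  carrier := {q | q.right = 1 ∧ ∀ s, s ≠ 1 → q.left s = 1}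
  mul_mem' := by
    rintro a b ⟨h1, h2⟩ ⟨h3, h4⟩
    refine ⟨by rw [RegularWreathProduct.mul_right, h1, h3, one_mul], fun s hs => ?_⟩
    rw [RegularWreathProduct.mul_left, Pi.mul_apply, h2 s hs, one_mul, h1, inv_one, one_mul,
      h4 s hs]
  one_mem' := ⟨rfl, fun _ _ => rfl⟩
  inv_mem' := by
    rintro a ⟨h1, h2⟩
    refine ⟨by rw [RegularWreathProduct.inv_right, h1, inv_one], fun s hs => ?_⟩
    show (a.left (a.right * s))⁻¹ = 1
    rw [h1, one_mul, h2 s hs, inv_one]

theorem AA_exp (a : QQ p) (ha : a ∈ (sg p).ker) : a ^ p = 1 := by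
  by_cases h1 : a.right = 1
  · exact pow_of_right _ h1
  · obtain ⟨h2, h3⟩ := pow_left' a p
    ext x
    · rw [h2, RegularWreathProduct.one_left, Pi.one_apply,
        prod_C a.left (fun h => h1 (inv_eq_one.1 h)) x]
      exact ha
    · rw [h3, C_pow, RegularWreathProduct.one_right]

theorem BB_exp (b : QQ p) (hb : b ∈ BB p) : b ^ p = 1 := pow_of_right _ hb.1

theorem QQ_fac (q : QQ p) : ∃ a ∈ (sg p).ker, ∃ b ∈ BB p, q = a * b := by
  let b : QQ p := ⟨Pi.mulSingle 1 (sg p q), 1⟩
  have hb : b ∈ BB p := ⟨rfl, fun s hs => Pi.mulSingle_eq_of_ne hs _⟩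
  have hsb : sg p b = sg p q := by
    show ∏ s : C p, (Pi.mulSingle 1 (sg p q) : C p → C p) s = sg p q
    rw [prod_pi_mulSingle']
    simp
  refine ⟨q * b⁻¹, ?_, b, hb, by group⟩
  rw [MonoidHom.mem_ker, map_mul, map_inv, hsb, mul_inv_cancel]

theorem QQ_exp (q : QQ p) : q ^ p ^ 2 = 1 := by
  rw [pow_two, pow_mul]
  apply pow_of_right
  rw [(pow_left' q p).2, C_pow]

/-- the function on `Q` -/
def f0 (p : ℕ) (q : QQ p) : C p :=
  if q.right = 1 then
    Multiplicative.ofAdd (Multiplicative.toAdd (q.left 1) *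
      Multiplicative.toAdd (q.left (Multiplicative.ofAdd 1)) ^ (p - 2))
  else 1

/-- the conjugates of the elements of `BB` -/
theorem TT_form {t : QQ p} (ht : t ∈ TT (BB p)) :
    t.right = 1 ∧ ∃ i : C p, ∀ s, s ≠ i → t.left s = 1 := by
  obtain ⟨x, b, ⟨hb1, hb2⟩, -, rfl⟩ := ht
  refine ⟨?_, x.right, fun s hs => ?_⟩
  · rw [RegularWreathProduct.mul_right, RegularWreathProduct.mul_right, hb1, mul_one,
      RegularWreathProduct.inv_right, mul_inv_cancel]
  · rw [RegularWreathProduct.mul_left, Pi.mul_apply, RegularWreathProduct.mul_left, Pi.mul_apply]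
    have h1 : x.right⁻¹ * s ≠ 1 := fun h => hs (by
      have := congrArg (fun z => x.right * z) h
      simpa using this)
    rw [hb2 _ h1, mul_one]
    show x.left s * (x.left (x.right * ((x * b).right⁻¹ * s)))⁻¹ = 1
    rw [RegularWreathProduct.mul_right, hb1, mul_one, mul_inv_cancel_left, mul_inv_cancel]

/-- the sum -/
theorem sum_lin (hp2 : p ≠ 2) (a b c d : ZMod p) (h : c = 0 ∨ d = 0) :
    ∑ j ∈ range p, ((j : ZMod p) * c + a) * ((j : ZMod p) * d + b) ^ (p - 2) = 0 := by
  have hp3 : 3 ≤ p := by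
    have := hp.out.two_le
    omega
  have hq : Fintype.card (ZMod p) = p := ZMod.card p
  by_cases hc : c = 0
  · by_cases hd : d = 0
    · subst hc hd
      simp
    · subst hc
      have h1 : ∀ j ∈ range p, ((j : ZMod p) * 0 + a) * ((j : ZMod p) * d + b) ^ (p - 2) =
          a * ((j : ZMod p) * d + b) ^ (p - 2) := by
        intro j _
        ring
      rw [sum_congr rfl h1, ← mul_sum, sum_aff (fun y => y ^ (p - 2)) hd b,
        FiniteField.sum_pow_lt_card_sub_one, mul_zero]
      rw [hq]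
      omega
  · have hd : d = 0 := h.resolve_left hc
    subst hd
    have h1 : ∀ j ∈ range p, ((j : ZMod p) * c + a) * ((j : ZMod p) * 0 + b) ^ (p - 2) =
        ((j : ZMod p) * c + a) ^ 1 * b ^ (p - 2) := by
      intro j _
      ring
    rw [sum_congr rfl h1, ← sum_mul, sum_aff (fun y => y ^ 1) hc a,
      FiniteField.sum_pow_lt_card_sub_one, zero_mul]
    rw [hq]
    omega

theorem f0_mem (hp2 : p ≠ 2) : f0 p ∈ NN p (BB p) := by
  intro t ht y
  obtain ⟨h1, i, h2⟩ := TT_form ht
  have h3 : ∀ j : ℕ, (t ^ j * y).right = y.right := by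
    intro j
    rw [RegularWreathProduct.mul_right, (pow_left' t j).2, h1, one_pow, one_mul]
  have h4 : ∀ (j : ℕ) (s : C p), (t ^ j * y).left s = t.left s ^ j * y.left s := by
    intro j s
    rw [RegularWreathProduct.mul_left, Pi.mul_apply, (pow_left' t j).1, (pow_left' t j).2, h1]
    simp
  by_cases hy : y.right = 1
  · have h5 : ∀ j ∈ range p, f0 p (t ^ j * y) = Multiplicative.ofAdd
        (((j : ZMod p) * Multiplicative.toAdd (t.left 1) + Multiplicative.toAdd (y.left 1)) *
        ((j : ZMod p) * Multiplicative.toAdd (t.left (Multiplicative.ofAdd 1)) +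
          Multiplicative.toAdd (y.left (Multiplicative.ofAdd 1))) ^ (p - 2)) := by
      intro j _
      unfold f0
      rw [if_pos (by rw [h3, hy]), h4, h4]
      simp only [toAdd_mul, toAdd_pow, nsmul_eq_mul]
    rw [prod_congr rfl h5, ← ofAdd_sum, sum_lin hp2]
    · rfl
    · by_cases hi : i = 1
      · right
        have h6 : (Multiplicative.ofAdd (1 : ZMod p)) ≠ i := by
          rw [hi]
          intro h
          exact one_ne_zero (Multiplicative.ofAdd.injective h)
        rw [h2 _ h6]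
        rfl
      · left
        rw [h2 1 (Ne.symm hi)]
        rfl
  · refine prod_eq_one fun j _ => ?_
    unfold f0
    rw [if_neg (by rw [h3]; exact hy)]

/-- the element of order `p ^ 2` of the wreath product -/
def gg (p : ℕ) : QQ p := ⟨Pi.mulSingle 1 (Multiplicative.ofAdd 1), Multiplicative.ofAdd 1⟩

theorem gg_pow : (gg p ^ p).right = 1 ∧ ∀ s, (gg p ^ p).left s = Multiplicative.ofAdd 1 := by
  obtain ⟨h1, h2⟩ := pow_left' (gg p) p
  refine ⟨by rw [h2, C_pow], fun s => ?_⟩
  have h3 : (gg p).right⁻¹ ≠ 1 := by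
    intro h
    have h4 : (Multiplicative.ofAdd (1 : ZMod p)) = 1 := inv_eq_one.1 h
    exact one_ne_zero (Multiplicative.ofAdd.injective h4)
  rw [h1, prod_C (gg p).left h3 s]
  show ∏ s : C p, (Pi.mulSingle 1 (Multiplicative.ofAdd 1) : C p → C p) s = _
  rw [prod_pi_mulSingle']
  simp

theorem neg_sum : ∑ m ∈ range p, (-(m : ZMod p)) ^ (p - 1) ≠ 0 := by
  rw [sum_range_zmod (fun y : ZMod p => (-y) ^ (p - 1))]
  have h1 : ∀ y : ZMod p, (-y) ^ (p - 1) = 1 - if y = 0 then 1 else 0 := by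
    intro y
    by_cases hy : y = 0
    · rw [if_pos hy, hy, neg_zero, zero_pow, sub_self]
      have := hp.out.two_le
      omega
    · rw [if_neg hy, sub_zero, ZMod.pow_card_sub_one_eq_one (neg_ne_zero.2 hy)]
  rw [sum_congr rfl fun y _ => h1 y, sum_sub_distrib]
  simp

theorem W_pow : ((⟨f0 p, gg p⟩ : C p ≀ᵣ QQ p) ^ p ^ 2) ≠ 1 := by
  intro h
  rw [pow_two, pow_mul] at h
  obtain ⟨hz1, hz2⟩ := gg_pow (p := p)
  have h1 : ((((⟨f0 p, gg p⟩ : C p ≀ᵣ QQ p) ^ p) ^ p).left 1 : C p) = 1 := by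
    rw [h]
    rfl
  rw [(pow_left' _ p).1, (pow_left' _ p).2] at h1
  have h2 : ∀ m ∈ range p, ((⟨f0 p, gg p⟩ : C p ≀ᵣ QQ p) ^ p).left
      (((⟨f0 p, gg p⟩ : C p ≀ᵣ QQ p).right ^ p)⁻¹ ^ m * 1) =
      Multiplicative.ofAdd ((-(m : ZMod p)) ^ (p - 1)) := by
    intro m _
    rw [(pow_left' _ p).1]
    show ∏ j ∈ range p, f0 p ((gg p)⁻¹ ^ j * ((gg p ^ p)⁻¹ ^ m * 1)) = _
    have hr : ∀ m : ℕ, ((gg p ^ p)⁻¹ ^ m * 1 : QQ p).right = 1 := by
      intro m
      rw [mul_one, (pow_left' _ m).2, RegularWreathProduct.inv_right, hz1, inv_one, one_pow]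
    have hl : ∀ s, ((gg p ^ p)⁻¹ ^ m * 1 : QQ p).left s = Multiplicative.ofAdd (-(m : ZMod p)) := by
      intro s
      rw [mul_one, (pow_left' _ m).1]
      have h3 : ∀ j ∈ range m, ((gg p ^ p)⁻¹ : QQ p).left (((gg p ^ p)⁻¹ : QQ p).right⁻¹ ^ j * s) =
          (Multiplicative.ofAdd (1 : ZMod p))⁻¹ := by
        intro j _
        rw [RegularWreathProduct.inv_left]
        show ((gg p ^ p).left _)⁻¹ = _
        rw [hz2]
      rw [prod_congr rfl h3, prod_const, card_range]
      apply Multiplicative.toAdd.injective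
      simp
    rw [prod_eq_single_of_mem 0 (mem_range.2 hp.out.pos)]
    · rw [pow_zero, one_mul]
      unfold f0
      rw [if_pos (hr m), hl, hl]
      congr 1
      rw [toAdd_ofAdd, ← pow_succ']
      congr 1
      have := hp.out.two_le
      omega
    · intro j hj hj0
      unfold f0
      rw [if_neg]
      rw [RegularWreathProduct.mul_right, hr m, mul_one, (pow_left' _ j).2,
        RegularWreathProduct.inv_right]
      intro h4
      have h5 : ((Multiplicative.ofAdd (1 : ZMod p))⁻¹ : C p) ^ j = 1 := h4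
      have h6 := congrArg Multiplicative.toAdd h5
      rw [toAdd_pow, toAdd_inv, toAdd_ofAdd, toAdd_one, smul_neg, neg_eq_zero, nsmul_eq_mul,
        mul_one, ZMod.natCast_eq_zero_iff] at h6
      rw [mem_range] at hj
      exact absurd (Nat.le_of_dvd (Nat.pos_of_ne_zero hj0) h6) (not_le.2 hj)
  rw [prod_congr rfl h2, ← ofAdd_sum] at h1
  exact neg_sum (p := p) (Multiplicative.ofAdd.injective h1)

/-- exponent `p ^ 3` -/
theorem main (hp2 : p ≠ 2) :
    ∃ (G : Type) (_ : Group G) (_ : Finite G), IsPGroup p G ∧ ∃ A B : Subgroup G,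
      (∀ a ∈ A, a ^ p = 1) ∧ (∀ b ∈ B, b ^ p = 1) ∧
      (∀ g : G, ∃ a ∈ A, ∃ b ∈ B, g = a * b) ∧ Monoid.exponent G = p ^ 3 := by
  have h0 : Finite (C p) := inferInstanceAs (Finite (ZMod p))
  exact step hp.out (sg p).ker AA_exp BB_exp QQ_fac 2 QQ_exp (gg p) (f0 p) (f0_mem hp2)
    W_pow

end Pool.Agent.H286.PG
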